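import Pool.Agent.BEL.StmtsC

namespace Pool.Agent.BEL.H17

open MeasureTheory Filter Topology Set
open scoped InnerProductSpace ENNReal

noncomputable section

section

variable {H : Type} [NormedAddCommGroup H] [InnerProductSpace ℝ H] {κ : Type}

lemma pj_apply (b : HilbertBasis κ ℝ H) (J : Finset κ) (v : H) :
    PJ b J v = ∑ j ∈ J, ⟪b j, v⟫_ℝ • b j := by
  simp [PJ]

open Classical in
lemma pj_coord (b : HilbertBasis κ ℝ H) (J : Finset κ) (v : H) (i : κ) :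
    ⟪b i, PJ b J v⟫_ℝ = if i ∈ J then ⟪b i, v⟫_ℝ else 0 := by
  rw [pj_apply, inner_sum]
  have h : ∀ j ∈ J, ⟪b i, ⟪b j, v⟫_ℝ • b j⟫_ℝ = if i = j then ⟪b i, v⟫_ℝ else 0 := by
    intro j _
    rw [inner_smul_right, orthonormal_iff_ite.mp b.orthonormal i j]
    by_cases hij : i = j
    · subst hij; simp
    · simp [hij]
  rw [Finset.sum_congr rfl h, Finset.sum_ite_eq]

lemma p1_apply (z : KK H) : P1 z = z.fst := rfl
lemma p2_apply (z : KK H) : P2 z = z.snd := rfl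

lemma p1_inj (v : H) : P1 (inj v) = 0 := rfl
lemma p2_inj (v : H) : P2 (inj v) = v := rfl

lemma p1_pk (b : HilbertBasis κ ℝ H) (J : Finset κ) (z : KK H) :
    P1 (PK b J z) = PJ b J (P1 z) := rfl
lemma p2_pk (b : HilbertBasis κ ℝ H) (J : Finset κ) (z : KK H) :
    P2 (PK b J z) = PJ b J (P2 z) := rfl

lemma ext_coord (b : HilbertBasis κ ℝ H) {v w : H} (h : ∀ j, ⟪b j, v⟫_ℝ = ⟪b j, w⟫_ℝ) :
    v = w := by
  apply b.repr.injective
  ext j
  rw [b.repr_apply_apply, b.repr_apply_apply]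
  exact h j

lemma ext_kk (z w : KK H) (h1 : P1 z = P1 w) (h2 : P2 z = P2 w) : z = w := by
  apply (WithLp.equiv 2 (H × H)).injective
  exact Prod.ext h1 h2

lemma pj_symm (b : HilbertBasis κ ℝ H) (J : Finset κ) (v w : H) :
    ⟪PJ b J v, w⟫_ℝ = ⟪v, PJ b J w⟫_ℝ := by
  rw [pj_apply, pj_apply, sum_inner, inner_sum]
  refine Finset.sum_congr rfl fun j _ => ?_
  rw [real_inner_smul_left, inner_smul_right, real_inner_comm v (b j)]
  try ring

lemma pj_idem (b : HilbertBasis κ ℝ H) (J : Finset κ) (v : H) :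
    PJ b J (PJ b J v) = PJ b J v := by
  apply ext_coord b
  intro j
  rw [pj_coord, pj_coord]
  split_ifs <;> rfl

lemma pj_norm (b : HilbertBasis κ ℝ H) (J : Finset κ) (v : H) :
    ‖v - PJ b J v‖ ^ 2 = ‖v‖ ^ 2 - ∑ j ∈ J, ⟪b j, v⟫_ℝ ^ 2 := by
  have h1 : ⟪v, PJ b J v⟫_ℝ = ∑ j ∈ J, ⟪b j, v⟫_ℝ ^ 2 := by
    rw [pj_apply, inner_sum]
    refine Finset.sum_congr rfl fun j _ => ?_
    rw [inner_smul_right, real_inner_comm v (b j)]
    ring
  have h2 : ‖PJ b J v‖ ^ 2 = ∑ j ∈ J, ⟪b j, v⟫_ℝ ^ 2 := by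
    rw [← real_inner_self_eq_norm_sq, pj_symm, pj_idem, h1]
  rw [@norm_sub_sq_real, h1, h2]
  ring

lemma pj_norm2 (b : HilbertBasis κ ℝ H) (J : Finset κ) (v : H) :
    ‖v - PJ b J v‖ ≤ ‖v‖ ∧ ‖PJ b J v‖ ≤ ‖v‖ := by
  have h0 : 0 ≤ ∑ j ∈ J, ⟪b j, v⟫_ℝ ^ 2 := Finset.sum_nonneg fun j _ => sq_nonneg _
  have h := pj_norm b J v
  have h2 : ‖PJ b J v‖ ^ 2 = ∑ j ∈ J, ⟪b j, v⟫_ℝ ^ 2 := by
    have h1 : ⟪v, PJ b J v⟫_ℝ = ∑ j ∈ J, ⟪b j, v⟫_ℝ ^ 2 := by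
      rw [pj_apply, inner_sum]
      refine Finset.sum_congr rfl fun j _ => ?_
      rw [inner_smul_right, real_inner_comm v (b j)]
      ring
    rw [← real_inner_self_eq_norm_sq, pj_symm, pj_idem, h1]
  have h3 : 0 ≤ ‖v - PJ b J v‖ ^ 2 := sq_nonneg _
  constructor
  · apply le_of_sq_le_sq _ (norm_nonneg _)
    linarith
  · apply le_of_sq_le_sq _ (norm_nonneg _)
    linarith

lemma kk_norm (z : KK H) : ‖z‖ ^ 2 = ‖P1 z‖ ^ 2 + ‖P2 z‖ ^ 2 :=
  WithLp.prod_norm_sq_eq_of_L2 z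

lemma kk_inner (z w : KK H) : ⟪z, w⟫_ℝ = ⟪P1 z, P1 w⟫_ℝ + ⟪P2 z, P2 w⟫_ℝ :=
  WithLp.prod_inner_apply z w

theorem gpk : GpkStmt := by
  intro H _ _ _ κ b om W hW
  refine ⟨?_, ?_, ?_, ?_, ?_, ?_, ?_, ?_, ?_, ?_⟩
  · intro J t z
    apply ext_kk
    · apply ext_coord b
      intro j
      rw [p1_pk, pj_coord, hW.c1, hW.c1, p1_pk, p2_pk, pj_coord, pj_coord]
      split_ifs <;> simp
    · apply ext_coord b
      intro j
      rw [p2_pk, pj_coord, hW.c2, hW.c2, p1_pk, p2_pk, pj_coord, pj_coord]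
      split_ifs <;> simp
  · intro J z
    rfl
  · intro J v
    apply ext_kk
    · rw [p1_pk, p1_inj, p1_inj, map_zero]
    · rw [p2_pk, p2_inj, p2_inj]
  · intro J z w
    rw [kk_inner, kk_inner, p1_pk, p2_pk, p1_pk, p2_pk, pj_symm, pj_symm]
  · intro J z
    apply ext_kk
    · rw [p1_pk, p1_pk, pj_idem]
    · rw [p2_pk, p2_pk, pj_idem]
  · intro J v w
    exact pj_symm b J v w
  · intro J v
    exact pj_idem b J v
  · intro J v
    exact pj_norm2 b J v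
  · intro J v
    exact pj_norm b J v
  · intro z
    have h := kk_norm z
    have h1 := sq_nonneg ‖P1 z‖
    have h2 := sq_nonneg ‖P2 z‖
    refine ⟨?_, ?_, h⟩
    · apply le_of_sq_le_sq _ (norm_nonneg _)
      linarith
    · apply le_of_sq_le_sq _ (norm_nonneg _)
      linarith

end

end

end Pool.Agent.BEL.H17
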